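import Pool.Agent.W170.Z3.Stm

/-!
# Degrees of the basis and enumeration of the positions (`G4a`, `G4d`)
-/

open Polynomial Pool.Agent.H337R2 Pool.Agent.W170.Z3

namespace Pool.Agent.W249.Z3

lemma Lin_monic (n : ℕ) : (Lin n).Monic := monic_X_add_C _

lemma Lin_deg (n : ℕ) : (Lin n).natDegree = 1 := natDegree_X_add_C _

lemma QB_aux (n i : ℕ) : (QB n i).Monic ∧ (QB n i).natDegree = 2 := by
  have h1 : (Lin n ^ 2).Monic := (Lin_monic n).pow 2
  have h2 : (Lin n ^ 2).natDegree = 2 := by rw [(Lin_monic n).natDegree_pow, Lin_deg]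
  have h3 : (C (hG i * (n : ℚ) ^ 2) : ℚ[X]).natDegree < (Lin n ^ 2).natDegree := by
    rw [h2, natDegree_C]; norm_num
  have e : QB n i = Lin n ^ 2 + C (hG i * (n : ℚ) ^ 2) := rfl
  rw [e]
  refine ⟨h1.add_of_left (degree_lt_degree h3), ?_⟩
  rw [natDegree_add_eq_left_of_natDegree_lt h3, h2]

lemma QB_monic (n b : ℕ) : (QB n b).Monic := (QB_aux _ _).1

lemma QB_deg (n b : ℕ) : (QB n b).natDegree = 2 := (QB_aux _ _).2

lemma st_ge (b : ℕ) : sT (b + 8) = sT 8 := rfl

lemma ho_ge (b : ℕ) : ho (b + 8) = ho 8 := rfl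

lemma sum_sG (b : ℕ) : ∑ i ∈ Finset.range 10, sG b i = ho b := by
  rcases Nat.lt_or_ge b 8 with h | h
  · interval_cases b <;> decide
  · obtain ⟨c, rfl⟩ := Nat.exists_eq_add_of_le' h
    unfold sG
    rw [st_ge, ho_ge]
    decide

lemma sG_mono (b i : ℕ) : sG b i ≤ sG (b + 1) i := by
  rcases Nat.lt_or_ge i 10 with hi | hi
  · rcases Nat.lt_or_ge b 8 with h | h
    · interval_cases b <;> interval_cases i <;> decide
    · obtain ⟨c, rfl⟩ := Nat.exists_eq_add_of_le' h
      unfold sG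
      rw [show c + 8 + 1 = c + 1 + 8 by ring, st_ge c, st_ge (c + 1)]
  · have h0 : sG b i = 0 := by
      unfold sG
      apply List.getD_eq_default
      rcases Nat.lt_or_ge b 8 with h | h
      · interval_cases b <;> exact hi
      · obtain ⟨c, rfl⟩ := Nat.exists_eq_add_of_le' h
        rw [st_ge]
        exact hi
    rw [h0]
    exact Nat.zero_le _

lemma prod_aux (n : ℕ) (f : ℕ → ℕ) :
    (∏ i ∈ Finset.range 10, QB n i ^ f i).Monic ∧
    (∏ i ∈ Finset.range 10, QB n i ^ f i).natDegree = 2 * ∑ i ∈ Finset.range 10, f i := by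
  refine ⟨monic_prod_of_monic _ _ fun i _ => (QB_monic n i).pow _, ?_⟩
  rw [natDegree_prod_of_monic _ _ fun i _ => (QB_monic n i).pow _, Finset.mul_sum]
  refine Finset.sum_congr rfl fun i _ => ?_
  rw [(QB_monic n i).natDegree_pow, QB_deg]
  ring

theorem G4a : StG4a := by
  intro n b m j _
  have h1 := prod_aux n fun i => sG b i * (n / 60)
  have h2 := prod_aux n fun i => sG (b + 1) i - sG b i
  have e1 : SB n b = ∏ i ∈ Finset.range 10, QB n i ^ (sG b i * (n / 60)) := rfl
  have e2 : TB n b = ∏ i ∈ Finset.range 10, QB n i ^ (sG (b + 1) i - sG b i) := rfl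
  rw [← e1] at h1
  rw [← e2] at h2
  have s1 : ∑ i ∈ Finset.range 10, sG b i * (n / 60) = ho b * (n / 60) := by
    rw [← Finset.sum_mul, sum_sG]
  have s2 : ∑ i ∈ Finset.range 10, (sG (b + 1) i - sG b i) = ho (b + 1) - ho b := by
    have h := Finset.sum_tsub_distrib (Finset.range 10) (f := fun i => sG (b + 1) i)
      (g := fun i => sG b i) fun i _ => sG_mono b i
    rw [h, sum_sG, sum_sG]
  have m3 : (TB n b ^ m).Monic := h2.1.pow _
  have m4 : (Lin n ^ j).Monic := (Lin_monic n).pow _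
  have e : PA n b m j = SB n b * TB n b ^ m * Lin n ^ j := rfl
  rw [e]
  refine ⟨(h1.1.mul m3).mul m4, ?_⟩
  rw [(h1.1.mul m3).natDegree_mul m4, h1.1.natDegree_mul m3, h1.2, h2.1.natDegree_pow, h2.2,
    (Lin_monic n).natDegree_pow, Lin_deg, s1, s2]
  unfold dg
  ring

theorem G4d : StG4d := by
  intro n i hn hi
  have hN : 1 ≤ n / 60 := by omega
  unfold loc Pos dg
  split_ifs with h0 h1 h2 h3 h4 h5 h6 h7
  · simp only [ho]
    omega
  · simp only [ho]
    omega
  · simp only [ho]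
    omega
  · simp only [ho]
    omega
  · simp only [ho]
    omega
  · simp only [ho]
    omega
  · simp only [ho]
    omega
  · simp only [ho]
    omega
  · refine ⟨Or.inr ⟨rfl, rfl, ?_⟩, ?_⟩
    · show i - 120 * (n / 60) < 2 * n - 120 * (n / 60)
      omega
    · show 2 * 60 * (n / 60) + 2 * (60 - 60) * 0 + (i - 120 * (n / 60)) = i
      omega

end Pool.Agent.W249.Z3
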